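import Pool.Agent.Q8.SM.Literal

/-!
Modified generators of the orthogonal complement of a factoring subalgebra `U` of `so₃((λ))`.

* `so₃((λ))` is `VV = Fin 3 → LaurentSeries ℂ` in the coordinates with respect to
  `e₁, e₂, e₃` (indices `0, 1, 2`), `br` is the commutator (first item of the theorem).
* The admissible triples are exactly the triples `τ(λ) R_i⁰` with `τ ∈ ℂ[[λ]]`, `τ(0) = 1`, and the
  `U`-module generated by `τ R_i⁰` is the orthogonal complement of `U` for the form with
  `P = 1 / τ`.
* The parametrisation `R_i⁰ + S(λ) e_i` of the problem file is a slip; read literally (with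
  these triples instead of the admissible ones) the statement is false, already for `S = 1`.
-/

namespace Pool.Agent.Results.MP_393361_al.AdmissibleModules

open Q8.SM

theorem result :
    -- `br` is the commutator of `so₃((λ))`
    (∀ X Y : VV, mat (br X Y) = mat X * mat Y - mat Y * mat X) ∧
    -- for every factoring subalgebra ...
    (∀ U : Submodule ℂ VV, Factoring U →
      -- the generators and the constants exist
      (∃ (E : Fin 3 → VV) (u v w x y z : ℂ) (B D : Matrix (Fin 3) (Fin 3) ℂ),
        Gens U E ∧ Cubic E u v w x y z B D) ∧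
      ∀ (E : Fin 3 → VV) (u v w x y z : ℂ) (B D : Matrix (Fin 3) (Fin 3) ℂ),
        Gens U E → Cubic E u v w x y z B D →
        -- every admissible triple generates the complement of `U` for some form
        (∀ R : Fin 3 → VV, Admissible E R u v w x y z →
          ∃ P : PowerSeries ℂ, PowerSeries.constantCoeff P = 1 ∧ gen U R = perp U P) ∧
        -- classification of the admissible triples
        ∃ R₀ : Fin 3 → VV, (∀ i, R₀ i ∈ perp U 1) ∧ Admissible E R₀ u v w x y z ∧
          (∀ R, Admissible E R u v w x y z ↔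
            ∃ τ : PowerSeries ℂ, PowerSeries.constantCoeff τ = 1 ∧ R = mulT τ R₀) ∧
          ∀ τ : PowerSeries ℂ, PowerSeries.constantCoeff τ = 1 →
            gen U (mulT τ R₀) = perp U τ⁻¹) ∧
    -- the literal form of the question fails
    (∃ (U : Submodule ℂ VV) (E R₀ : Fin 3 → VV), Factoring U ∧ Gens U E ∧
      Cubic E 0 0 0 0 0 0 0 0 ∧ (∀ i, R₀ i ∈ perp U 1) ∧ Admissible E R₀ 0 0 0 0 0 0 ∧
      ¬ ∃ P : PowerSeries ℂ, gen U (fun i j => R₀ i j + if j = i then 1 else 0) = perp U P) := by
  refine ⟨mat_br, ?_, ?_⟩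
  · intro U hU
    constructor
    · have hex := fun i => exists_mem hU (eL i)
      choose E hE hl using hex
      have hG : Gens U E := ⟨hE, hl⟩
      obtain ⟨u, v, w, x, y, z, B, D, h⟩ := exists_cubic hU hG
      exact ⟨E, u, v, w, x, y, z, B, D, hG, h⟩
    · intro E u v w x y z B D hE hC
      have hm := main hU hE hC
      refine ⟨?_, hm⟩
      obtain ⟨R₀, _, _, h1, h2⟩ := hm
      intro R hR
      obtain ⟨τ, hτ, rfl⟩ := (h1 R).1 hR
      refine ⟨τ⁻¹, ?_, h2 τ hτ⟩
      rw [PowerSeries.constantCoeff_inv, hτ, inv_one]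
  · exact ⟨UU, EE, EE, factoring_UU, gens_EE, cubic_EE, EE_perp, adm_EE, literal_fails⟩

end Pool.Agent.Results.MP_393361_al.AdmissibleModules
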